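import Pool.Agent.H56.Div2

namespace Pool.Agent.Results.MP_9329f2_nt.NotMono

open Pool.Agent.H56.Dv

/-- `C_{69/16} = 253` and `C_{13/3} = 252`, while `1 < 69/16 < 13/3`: the component count
`r ↦ C_r` decreases somewhere. -/
theorem result : ∃ r s : ℝ, 1 < r ∧ r < s ∧ C r = 253 ∧ C s = 252 := by
  refine ⟨((69 : ℕ) : ℝ) / ((16 : ℕ) : ℝ), ((13 : ℕ) : ℝ) / ((3 : ℕ) : ℝ), by norm_num, by norm_num,
    ?_, ?_⟩
  · exact final_spec (by norm_num) (by norm_num) (by norm_num) f1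
  · exact final_spec (by norm_num) (by norm_num) (by norm_num) f2

end Pool.Agent.Results.MP_9329f2_nt.NotMono
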